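import Pool.Agent.R207.MB.Main4
import Pool.Agent.R207.MB.P_DER0
import Pool.Agent.R207.MB.P_VB
import Pool.Agent.R207.MB.P_INT
import Pool.Agent.R207.MB.P_LM
import Pool.Agent.R207.MB.P_VLIM
import Pool.Agent.R207.MB.P_V0
import Pool.Agent.R207.MB.P_C3
import Pool.Agent.R207.MB.P_DAT
import Pool.Agent.R207.MB.P_UP
import Pool.Agent.R207.MB.K1
import Pool.Agent.R207.MB.K2
import Pool.Agent.R207.MB.BL
import Pool.Agent.R207.MB.MASS
import Pool.Agent.R207.MB.LIN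
import Pool.Agent.R207.MB.T1
import Pool.Agent.R207.MB.T1b
import Pool.Agent.R207.MB.T2
import Pool.Agent.R207.MB.P6
import Pool.Agent.R207.MB.POT0
import Pool.Agent.R207.MB.POT1
import Pool.Agent.R207.MB.J
import Pool.Agent.R207.MB.C
import Pool.Agent.R207.MB.EST
import Pool.Agent.R207.MB.LOC
import Pool.Agent.R207.MB.DER

set_option autoImplicit false

open MeasureTheory Filter Topology Metric

noncomputable section

namespace Pool.Agent.Results.MP_e2b804_an.MixedBlowUp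

/-- Four-dimensional Euclidean space; the coordinates `x 0, x 1, x 2, x 3` are `x_1, x_2, x_3, x_4` of the problem. -/
abbrev E : Type := EuclideanSpace ℝ (Fin 4)

/-- The derivative in the `i`-th coordinate direction. -/
def D (i : Fin 4) (f : E → ℝ) (x : E) : ℝ := fderiv ℝ f x (EuclideanSpace.single i 1)

/-- The Laplacian. -/
def Lap (f : E → ℝ) (x : E) : ℝ := ∑ i, D i (D i f) x

/-- The bilaplacian `Δ²`. -/
def Lap2 (f : E → ℝ) (x : E) : ℝ := Lap (Lap f) x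

/-- The domain `Ω = (-2,2) × ℝ³`. -/
def Omega : Set E := {x | -2 < x 0 ∧ x 0 < 2}

/-- `Λ₁ = 6 |S⁴| = 16 π²`. -/
def Lambda1 : ℝ := 16 * Real.pi ^ 2

/-- Every `u_k` is smooth in `Ω`. -/
def SmoothSeq (u : ℕ → E → ℝ) : Prop := ∀ k, ContDiffOn ℝ (⊤ : ℕ∞) (u k) Omega

/-- `Δ² u_k = V_k exp (4 u_k)` in `Ω`, for every `k`. -/
def Solves (V u : ℕ → E → ℝ) : Prop := ∀ k, ∀ x ∈ Omega, Lap2 (u k) x = V k x * Real.exp (4 * u k x)

/-- `∫_Ω exp (4 u_k) ≤ C` for all `k`. -/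
def BoundedVolume (u : ℕ → E → ℝ) : Prop := ∃ C : ℝ, ∀ k,
  IntegrableOn (fun x => Real.exp (4 * u k x)) Omega ∧ ∫ x in Omega, Real.exp (4 * u k x) ≤ C

/-- Every `V_k` is continuous and bounded in `Ω`. -/
def BoundedSeq (V : ℕ → E → ℝ) : Prop := ∀ k, ContinuousOn (V k) Omega ∧ ∃ M : ℝ, ∀ x ∈ Omega, |V k x| ≤ M

/-- `V_k → V₀` locally uniformly in `Ω`, with `V₀` continuous and positive in `Ω`. -/
def GoodLimit (V : ℕ → E → ℝ) (V0 : E → ℝ) : Prop :=
  TendstoLocallyUniformlyOn V V0 atTop Omega ∧ ContinuousOn V0 Omega ∧ ∀ x ∈ Omega, 0 < V0 x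

/-- The sequences of the problem: smooth solutions of `Δ² u_k = V_k exp (4 u_k)` in `Ω` with bounded volume
`∫_Ω exp (4 u_k) ≤ C`, continuous bounded `V_k`, and `V_k → V₀` locally uniformly in `Ω` with `V₀` continuous
and positive. -/
structure IsSequence (V0 : E → ℝ) (V u : ℕ → E → ℝ) : Prop where
  smooth : SmoothSeq u
  equation : Solves V u
  volume : BoundedVolume u
  bounded : BoundedSeq V
  limit : GoodLimit V V0

/-- The concentration blow-up set: the points `x ∈ Ω` with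
`lim_{r → 0+} liminf_k ∫_{B_r(x)} V_k exp (4 u_k) ≥ Λ₁ / 2` (limits in the extended reals). -/
def S1 (V u : ℕ → E → ℝ) : Set E :=
  {x | x ∈ Omega ∧ ∃ L : EReal, Tendsto (fun r : ℝ => liminf (fun k : ℕ =>
      ((∫ y in ball x r ∩ Omega, V k y * Real.exp (4 * u k y) : ℝ) : EReal)) atTop) (𝓝[>] 0) (𝓝 L) ∧
      ((Lambda1 / 2 : ℝ) : EReal) ≤ L}

/-- The class `K(Ω, S)`. -/
def InK (S : Set E) (ψ : E → ℝ) : Prop :=
  ContDiffOn ℝ (⊤ : ℕ∞) ψ (Omega \ S) ∧ (∀ x ∈ Omega \ S, ψ x ≤ 0) ∧ (∃ x ∈ Omega \ S, ψ x ≠ 0) ∧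
    ∀ x ∈ Omega \ S, Lap2 ψ x = 0

/-- The zero set `S_ψ` in `Ω \ S`. -/
def zeroSet (S : Set E) (ψ : E → ℝ) : Set E := {x | x ∈ Omega \ S ∧ ψ x = 0}

/-- The norm of the `n`-th derivative of `h` at `x`. -/
def jetNorm (n : ℕ) (h : E → ℝ) (x : E) : ℝ := ‖iteratedFDeriv ℝ n h x‖

/-- The space of continuous trilinear forms on `E`. -/
def Tri : Type := ContinuousMultilinearMap ℝ (fun _ : Fin 3 => E) ℝ

/-- The operator norm on trilinear forms. -/
instance triNormed : NormedAddCommGroup Tri := ContinuousMultilinearMap.normedAddCommGroup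

/-- The third derivative of `h` at `x`. -/
def jet3 (h : E → ℝ) (x : E) : Tri := iteratedFDeriv ℝ 3 h x

/-- The norm of the difference of the third derivatives of `h` at `x` and `y`. -/
def jetDiff (h : E → ℝ) (x y : E) : ℝ := ‖jet3 h x - jet3 h y‖

/-- The `C^{3,α}`-norm of `h` on `K` is small: all derivatives of order `≤ 3` are at most `e` on `K`, and the third
derivative is Hölder continuous on `K` with exponent `α` and constant `e`. -/
def SmallC3 (α e : ℝ) (h : E → ℝ) (K : Set E) : Prop :=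
  (∀ n : ℕ, n ≤ 3 → ∀ x ∈ K, jetNorm n h x ≤ e) ∧ ∀ x ∈ K, ∀ y ∈ K, jetDiff h x y ≤ e * ‖x - y‖ ^ α

/-- Convergence `f_k → g` in `C^{3,α}_loc(U)`. -/
def C3Conv (α : ℝ) (f : ℕ → E → ℝ) (g : E → ℝ) (U : Set E) : Prop :=
  ∀ K : Set E, IsCompact K → K ⊆ U → ∀ e : ℝ, 0 < e → ∀ᶠ k in atTop, SmallC3 α e (fun x => f k x - g x) K

/-- The profile `φ(x) = x_1 - x_1³/3 - 2/3`. -/
def profile (x : E) : ℝ := x 0 - (x 0) ^ 3 / 3 - 2 / 3

/-- The set `{-1} × A`. -/
def centres (A : Set (Fin 3 → ℝ)) : Set E := {x | x 0 = -1 ∧ (fun i : Fin 3 => x i.succ) ∈ A}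

/-- The set `{1} × ℝ³`. -/
def wall : Set E := {x | x 0 = 1}

/-- The second alternative with profile `ψ`: `ψ ∈ K(Ω, S₁)` and `u_k / β_k → ψ` in `C^{3,α}_loc(Ω \ (S₁ ∪ S_ψ))` for
all `α ∈ [0,1)`, for some numbers `β_k → ∞`. -/
def SecondAlternative (V u : ℕ → E → ℝ) (ψ : E → ℝ) : Prop :=
  InK (S1 V u) ψ ∧ ∃ β : ℕ → ℝ, Tendsto β atTop atTop ∧ ∀ α : ℝ, 0 ≤ α → α < 1 →
    C3Conv α (fun k x => u k x / β k) ψ (Omega \ (S1 V u ∪ zeroSet (S1 V u) ψ))

/-- `u_k → +∞` locally uniformly on `Z`. -/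
def TendsToInftyOn (u : ℕ → E → ℝ) (Z : Set E) : Prop :=
  ∀ K : Set E, IsCompact K → K ⊆ Z → ∀ M : ℝ, ∀ᶠ k in atTop, ∀ x ∈ K, M ≤ u k x

open Pool.Agent.R207.MB Pool.Agent.R207.MB.Main in
/-- For every finite `A ⊆ ℝ³` there are sequences `(V_k)`, `(u_k)` as in the problem whose concentration blow-up set
is `{-1} × A` and which satisfy the second alternative with `ψ = φ`; the polyharmonic blow-up set is `{1} × ℝ³`, and
`u_k → +∞` locally uniformly on it. -/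
theorem result : ∀ A : Set (Fin 3 → ℝ), A.Finite → ∃ (V0 : E → ℝ) (V u : ℕ → E → ℝ),
    IsSequence V0 V u ∧ S1 V u = centres A ∧ SecondAlternative V u profile ∧
    zeroSet (S1 V u) profile = wall ∧ TendsToInftyOn u wall := by
  intro A hA
  obtain ⟨P, hPA⟩ := exists_P A hA
  have hP : ∀ p ∈ P, p 0 = -1 := fun p hp => ((hPA p).1 hp).1
  have h3 := t_K3
  have h1 := t_K1
  have h2 := t_K2 h1 h3
  have hM := t_MASS
  have hT := t_T1 h1 h3
  have hTb := t_T1b hT h3 t_BL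
  have hT2 := t_T2 hM
  have hJ := t_J
  have hC := t_C hJ
  have hE := t_EST t_POT0 hJ
  have hD := t_DER h1 h2 h3 hT t_POT1 hE t_LOC
  have hD0 := t_DER0 h1 h2 h3 hT t_POT1 hE
  obtain ⟨c, b, δ, ε, Dt⟩ := t_DAT hC hE (t_P6 hM) P hP
  set u : ℕ → E → ℝ := fun k => uu P (c (b k)) (b k) (δ k) with hu
  set V : ℕ → E → ℝ := fun k => VV P (c (b k)) (b k) (δ k) with hV
  have hbil : ∀ k, ∀ x ∈ Omega, ContDiffAt ℝ (⊤ : ℕ∞) (u k) x ∧ bilap (u k) x = ff P (c (b k)) (b k) (δ k) x :=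
    fun k x hx => bilap_uu h3 t_BL t_LIN hT hTb P (Dt.hδ0 k) (Dt.hH k) (Dt.hF k) hx
  have hVe : ∀ k y, V k y * Real.exp (4 * u k y) = ff P (c (b k)) (b k) (δ k) y := fun k y => VV_mul _ _ _ _ _
  have hseq : IsSequence (V0 P) V u := by
    refine ⟨?_, ?_, ?_, fun k => ⟨?_, ?_⟩, ?_, ?_, ?_⟩
    · intro k x hx
      exact (hbil k x hx).1.contDiffWithinAt
    · intro k x hx
      rw [hVe]; exact (hbil k x hx).2
    · exact t_INT hM hJ hT h3 P c b δ ε Dt
    · have c1 : ContinuousOn (u k) Omega := fun x hx => (hbil k x hx).1.continuousAt.continuousWithinAt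
      have c2 := ff_continuous hT2 P (Dt.hδ0 k) (Dt.hH k) (Dt.hF k)
      exact c2.continuousOn.mul ((c1.const_mul 4).neg.rexp)
    · exact t_VB hT2 P c b δ ε Dt k
    · exact t_VLIM P c b δ ε Dt
    · exact (t_V0 P).1
    · exact (t_V0 P).2
  have hS1 : S1 V u = {x : E | x 0 = -1 ∧ (fun i : Fin 3 => x i.succ) ∈ A} := by
    ext x
    constructor
    · rintro ⟨hx, hL⟩
      exact (hPA x).1 ((conc_mem (t_LM hM t_CONC hT2) Dt V u hVe x hx).1 hL)
    · intro hx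
      have hxP := (hPA x).2 hx
      have hxO : x ∈ Omega := mem_Om_of_P hP hxP
      exact ⟨hxO, (conc_mem (t_LM hM t_CONC hT2) Dt V u hVe x hxO).2 hxP⟩
  have hS1P : ∀ x, x ∈ S1 V u ↔ x ∈ P := by
    intro x; rw [hS1]; exact (hPA x).symm
  have hzero : zeroSet (S1 V u) profile = {x : E | x 0 = 1} := by
    ext x
    constructor
    · rintro ⟨⟨hx, -⟩, h0⟩
      exact (zero_iff x hx).1 h0
    · intro hx
      have hx1 : x 0 = 1 := hx
      have hxO : x ∈ Omega := by constructor <;> rw [hx1] <;> norm_num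
      refine ⟨⟨hxO, ?_⟩, (zero_iff x hxO).2 hx⟩
      rw [hS1P]; intro hxP
      have := hP x hxP
      rw [hx1] at this; norm_num at this
  refine ⟨V0 P, V, u, hseq, hS1, ⟨?_, ⟨b, Dt.hb, ?_⟩⟩, hzero, ?_⟩
  · refine ⟨phi_smooth.contDiffOn, fun x hx => phi_nonpos hx.1, ⟨0, ⟨?_, ?_⟩, ?_⟩, ?_⟩
    · constructor <;> simp
    · rw [hS1P]; intro h0
      have := hP 0 h0
      simp at this
    · simp [profile]
    · intro x _
      exact t_LIN.2.2.2.2.2 x
  · intro α hα0 hα1 K hK hKU e he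
    have hK2 : K ⊆ {x : E4 | x ∈ Om ∧ x ∉ P ∧ x 0 ≠ 1} := by
      intro x hx
      obtain ⟨hx1, hx2⟩ := hKU hx
      rw [Set.mem_union, not_or] at hx2
      refine ⟨hx1, fun h => hx2.1 ((hS1P x).2 h), fun h => hx2.2 ?_⟩
      rw [hzero]; exact h
    have hconv := t_C3 h1 h2 h3 hT hD hD0 P c b δ ε Dt K hK hK2 α hα0 hα1 e he
    have hsub : ∀ k, ∀ n : ℕ, ∀ x ∈ K, iteratedFDeriv ℝ n (fun z => u k z / b k - profile z) x =
        iteratedFDeriv ℝ n (fun z => u k z / b k) x - iteratedFDeriv ℝ n profile x := by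
      intro k n x hx
      have g1 : ContDiffAt ℝ n (fun z => u k z / b k) x :=
        ((hbil k x (hKU hx).1).1.div_const (b k)).of_le (by exact_mod_cast le_top)
      have g2 : ContDiffAt ℝ n profile x := (phi_smooth.contDiffAt (x := x)).of_le (by exact_mod_cast le_top)
      exact iteratedFDeriv_sub_apply g1 g2
    filter_upwards [hconv] with k hk
    refine ⟨fun n hn x hx => ?_, fun x hx y hy => ?_⟩
    · unfold jetNorm
      rw [hsub k n x hx]
      exact hk.1 n hn x hx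
    · show ‖iteratedFDeriv ℝ 3 (fun z => u k z / b k - profile z) x -
        iteratedFDeriv ℝ 3 (fun z => u k z / b k - profile z) y‖ ≤ _
      rw [hsub k 3 x hx, hsub k 3 y hy]
      exact hk.2 x hx y hy
  · intro K hK hK1 M
    have hK2 : K ⊆ {x : E4 | x ∈ Om ∧ x 0 = 1} := by
      intro x hx
      have hx1 : x 0 = 1 := hK1 hx
      exact ⟨by constructor <;> rw [hx1] <;> norm_num, hx1⟩
    exact t_UP P c b δ ε Dt K hK hK2 M

end Pool.Agent.Results.MP_e2b804_an.MixedBlowUp
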